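import Pool.Agent.EGF.StmtsS

/-!
Families of probability vectors with bounded sums (row MIX of squad EGF, problem MP_1090a0_co).
-/

set_option autoImplicit false

open Finset

namespace Pool.Agent.EGF.H14

/-- one family: the average is a bounded probability vector -/
theorem avg {X : Type} (A : Finset X) (κ : ℝ) (m : ℕ) (u : ℕ → X → ℝ) (hm : (0 : ℝ) < m)
    (hκ : 0 < κ) (hA : κ / 2 * A.card ≤ (m : ℝ))
    (hu : ∀ i < m, (∀ a ∈ A, 0 ≤ u i a) ∧ ∑ a ∈ A, u i a = 1)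
    (hs : ∀ a ∈ A, ∑ i ∈ range m, u i a ≤ 2) :
    (∀ a ∈ A, 0 ≤ (∑ i ∈ range m, u i a) / m ∧
      (∑ i ∈ range m, u i a) / m * A.card ≤ 4 / κ) ∧
    ∑ a ∈ A, (∑ i ∈ range m, u i a) / m = 1 := by
  refine ⟨fun a ha => ⟨?_, ?_⟩, ?_⟩
  · exact div_nonneg (Finset.sum_nonneg fun i hi => (hu i (mem_range.1 hi)).1 a ha) hm.le
  · have h1 : (A.card : ℝ) ≤ 2 * m / κ := by
      rw [le_div_iff₀ hκ]; linarith
    have h2 := hs a ha
    have h3 : 0 ≤ ∑ i ∈ range m, u i a :=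
      Finset.sum_nonneg fun i hi => (hu i (mem_range.1 hi)).1 a ha
    calc (∑ i ∈ range m, u i a) / m * A.card
        ≤ 2 / m * (2 * m / κ) := by
          apply mul_le_mul _ h1 (Nat.cast_nonneg _) (by positivity)
          exact div_le_div_of_nonneg_right h2 hm.le
      _ = 4 / κ := by
          field_simp
          norm_num
  · rw [← Finset.sum_div, Finset.sum_comm]
    rw [Finset.sum_congr rfl (fun i hi => (hu i (mem_range.1 hi)).2)]
    simp only [Finset.sum_const, card_range, nsmul_eq_mul, mul_one]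
    exact div_self hm.ne'

theorem mix (hB : BmdStmt) : MixStmt := by
  intro X Y _ _ A B F M ι ρ κ m n u v hA hBn hι h2 hM hρ hκ h4 hL hAm hBm hu hv hus hvs
  have hAc : (0 : ℝ) < A.card := by exact_mod_cast hA.card_pos
  have hBc : (0 : ℝ) < B.card := by exact_mod_cast hBn.card_pos
  have hm : (0 : ℝ) < m := lt_of_lt_of_le (by positivity) hAm
  have hn : (0 : ℝ) < n := lt_of_lt_of_le (by positivity) hBm
  obtain ⟨a1, a2⟩ := avg A κ m u hm hκ hAm hu hus
  obtain ⟨b1, b2⟩ := avg B κ n v hn hκ hBm hv hvs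
  have key := hB X Y A B F M ι ρ (4 / κ) (fun a => (∑ i ∈ range m, u i a) / m)
    (fun b => (∑ j ∈ range n, v j b) / n) hA hBn hι h2 hM hρ (by positivity)
    (by rw [div_mul_eq_mul_div, div_le_iff₀ hκ]; exact h4) hL a1 b1 a2 b2
  have h5 : ∑ p ∈ (A ×ˢ B) ∩ F, (∑ i ∈ range m, u i p.1) / m * ((∑ j ∈ range n, v j p.2) / n) =
      (∑ i ∈ range m, ∑ j ∈ range n, ∑ p ∈ (A ×ˢ B) ∩ F, u i p.1 * v j p.2) / (m * n) := by
    have h6 : ∀ p ∈ (A ×ˢ B) ∩ F, (∑ i ∈ range m, u i p.1) / m * ((∑ j ∈ range n, v j p.2) / n) =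
        (∑ i ∈ range m, ∑ j ∈ range n, u i p.1 * v j p.2) / (m * n) := by
      intro p _
      rw [div_mul_div_comm, Finset.sum_mul_sum]
    rw [Finset.sum_congr rfl h6, ← Finset.sum_div, Finset.sum_comm]
    congr 1
    refine Finset.sum_congr rfl fun i _ => ?_
    rw [Finset.sum_comm]
  rw [h5, le_div_iff₀ (by positivity)] at key
  exact key

end Pool.Agent.EGF.H14
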